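import Pool.Agent.helper19.MX.SpecC

/-!
# Row mx:CN2 (MP_a875de_ag): free orbits
-/

set_option autoImplicit false

namespace MX

open Pool.Agent.helper53.AU AN
open scoped Classical Topology IntermediateField

theorem CN2_unique {k F : Type} [Field k] [Field F] [Algebra k F] (P : Place k F) (s : F) (c c' : k)
    (h : P.Ge 1 (s - algebraMap k F c)) (h' : P.Ge 1 (s - algebraMap k F c')) : c = c' := by
  by_contra hne
  have h1 : P.Ge 1 (algebraMap k F (c' - c)) := by
    have h2 := h.sub h'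
    have h3 : s - algebraMap k F c - (s - algebraMap k F c') = algebraMap k F (c' - c) := by
      rw [map_sub]; ring
    rwa [h3] at h2
  have h4 : c' - c ≠ 0 := sub_ne_zero.2 (Ne.symm hne)
  have h5 : algebraMap k F (c' - c) ≠ 0 := by
    rw [Ne, FaithfulSMul.algebraMap_eq_zero_iff]
    exact h4
  have h6 := h1.le h5
  rw [P.ord_const _ h4] at h6
  omega

theorem CN2 (hQF11 : QF11_stmt) (hCN1 : CN1_stmt) : CN2_stmt := by
  intro k F _ _ _ _ hF s hs hG
  have hfin := (hCN1 k F hF s hs hG).1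
  have hbad : (⋃ τ ∈ {τ : F ≃ₐ[k] F | τ s = s ∧ τ ≠ 1}, {P : Place k F | τ • P = P}).Finite := by
    refine Set.Finite.biUnion (hfin.subset (fun τ h => h.1)) ?_
    intro τ hτ
    exact hQF11 k F hF τ hτ.2
  have hB : {c : k | ∃ P ∈ ⋃ τ ∈ {τ : F ≃ₐ[k] F | τ s = s ∧ τ ≠ 1}, {P : Place k F | τ • P = P},
      P.Ge 1 (s - algebraMap k F c)}.Finite := by
    refine (hbad.image (fun P : Place k F =>
      if h : ∃ c : k, P.Ge 1 (s - algebraMap k F c) then h.choose else 0)).subset ?_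
    rintro c ⟨P, hP, hc⟩
    refine ⟨P, hP, ?_⟩
    have h : ∃ c : k, P.Ge 1 (s - algebraMap k F c) := ⟨c, hc⟩
    show (if h : ∃ c : k, P.Ge 1 (s - algebraMap k F c) then h.choose else 0) = c
    rw [dif_pos h]
    exact CN2_unique P s _ _ h.choose_spec hc
  refine ⟨hB.toFinset, ?_⟩
  intro c hc P hP τ hτ hfix
  by_contra hne
  apply hc
  rw [Set.Finite.mem_toFinset]
  refine ⟨P, ?_, hP⟩
  rw [Set.mem_iUnion₂]
  exact ⟨τ, ⟨hτ, hne⟩, hfix⟩

end MX
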