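import Pool.Agent.helper19.MX.SpecD

/-!
# Row mx:SPE (MP_a875de_ag): from the local field to finite fields
-/

set_option autoImplicit false

namespace MX

open Pool.Agent.helper53.AU AN
open scoped Classical Topology IntermediateField
open Finset (range powerset Icc)

theorem SPE_char {K : Type} [Field K] [Fintype K] {n : ℕ} (h : Fintype.card K = 4 ^ n) : CharP K 2 := by
  obtain ⟨p, hp⟩ := CharP.exists K
  obtain ⟨m, hpp, hm⟩ := FiniteField.card K p
  have h1 : p ∣ 4 ^ n := by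
    rw [← h, hm]
    exact dvd_pow_self p m.pos.ne'
  have h2 : p ∣ 2 ^ 2 := by
    have := hpp.dvd_of_dvd_pow h1
    norm_num
    exact this
  have h3 : p = 2 := (Nat.prime_dvd_prime_iff_eq hpp Nat.prime_two).1 (hpp.dvd_of_dvd_pow h2)
  subst h3
  exact hp

theorem SPE (hCTR : CTR_stmt) (hENG : ENG_stmt) (hCSM : CSM_stmt) (hFAB : FAB_stmt)
    (hCNG : CNG_stmt) : SPE_stmt := by
  intro r A lev hG
  have hex : ∀ T : Finset ℕ, ∃ E : Finset Lam, T ⊆ range r → T ≠ ∅ →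
      ∀ (S : Subring Lam), (E : Set Lam) ⊆ S → ∀ (K : Type) [Field K] (φ : S →+* K)
        (hθ : thL ∈ S) (b' : ℕ → K), (∀ i, i ≤ lev T → ∃ hb : bb (lev T) (sumT A T) i ∈ S,
          b' i = φ ⟨bb (lev T) (sumT A T) i, hb⟩) → Cert K (φ ⟨thL, hθ⟩) (lev T) b' := by
    intro T
    by_cases h1 : T ⊆ range r ∧ T ≠ ∅
    · obtain ⟨E, hE⟩ := hCTR Lam thL (lev T) (bb (lev T) (sumT A T)) (hG.cert T h1.1 h1.2)
      exact ⟨E, fun _ _ => hE⟩
    · exact ⟨∅, fun h2 h3 => absurd ⟨h2, h3⟩ h1⟩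
  choose ET hET using hex
  set M : ℕ := (range r).powerset.sup lev with hM
  have hlev : ∀ T, T ⊆ range r → lev T ≤ M := fun T hT =>
    Finset.le_sup (f := lev) (Finset.mem_powerset.2 hT)
  obtain ⟨n₀, hn₀⟩ := hENG ((range r).powerset.biUnion ET ∪
    (range r ×ˢ range (M + 1)).image (fun p => A p.1 p.2) ∪
    (range r).powerset.image (fun T => (sumT A T (lev T))⁻¹))
  refine ⟨n₀, ?_⟩
  intro n hn K _ _ hcard
  haveI := SPE_char hcard
  obtain ⟨S, φ, hθ, hES, hps⟩ := hn₀ n hn K hcard ((-1) ^ (n + 1)) (by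
    rcases neg_one_pow_eq_or ℤ (n + 1) with h | h
    · exact Or.inl h
    · exact Or.inr h)
  have hE1 : ∀ T, T ⊆ range r → (ET T : Set Lam) ⊆ S := by
    intro T hT x hx
    refine hES ?_
    rw [Finset.mem_coe, Finset.mem_union, Finset.mem_union]
    exact Or.inl (Or.inl (Finset.mem_biUnion.2 ⟨T, Finset.mem_powerset.2 hT, hx⟩))
  have hE2 : ∀ j i, j < r → i ≤ M → A j i ∈ S := by
    intro j i hj hi
    refine hES ?_
    rw [Finset.mem_coe, Finset.mem_union, Finset.mem_union]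
    refine Or.inl (Or.inr (Finset.mem_image.2 ⟨(j, i), ?_, rfl⟩))
    rw [Finset.mem_product]
    exact ⟨Finset.mem_range.2 hj, Finset.mem_range.2 (Nat.lt_succ_of_le hi)⟩
  have hE3 : ∀ T, T ⊆ range r → (sumT A T (lev T))⁻¹ ∈ S := by
    intro T hT
    refine hES ?_
    rw [Finset.mem_coe, Finset.mem_union]
    exact Or.inr (Finset.mem_image.2 ⟨T, Finset.mem_powerset.2 hT, rfl⟩)
  let A' : ℕ → ℕ → K := fun j i => if h : A j i ∈ S ∧ i ≤ M then φ ⟨A j i, h.1⟩ else 0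
  have hA' : ∀ j i (h : A j i ∈ S), i ≤ M → A' j i = φ ⟨A j i, h⟩ := by
    intro j i h hi
    show (if h : A j i ∈ S ∧ i ≤ M then φ ⟨A j i, h.1⟩ else 0) = _
    rw [dif_pos ⟨h, hi⟩]
  have hA0 : ∀ j i, M < i → A' j i = 0 := by
    intro j i hi
    show (if h : A j i ∈ S ∧ i ≤ M then φ ⟨A j i, h.1⟩ else 0) = _
    rw [dif_neg]
    rintro ⟨-, h⟩
    omega
  have hsum : ∀ T, T ⊆ range r → ∀ i, i ≤ M →
      ∃ h : sumT A T i ∈ S, sumT A' T i = φ ⟨sumT A T i, h⟩ := by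
    intro T hT i hi
    have h1 : ∀ j ∈ T, A j i ∈ S := fun j hj => hE2 j i (Finset.mem_range.1 (hT hj)) hi
    have h2 : sumT A T i ∈ S := Subring.sum_mem S h1
    refine ⟨h2, ?_⟩
    have h3 : (⟨sumT A T i, h2⟩ : S) = ∑ j ∈ T.attach, ⟨A j i, h1 j j.2⟩ := by
      apply Subtype.ext
      rw [AddSubmonoidClass.coe_finsetSum]
      exact (Finset.sum_attach T (fun j => A j i)).symm
    rw [h3, map_sum]
    show ∑ j ∈ T, A' j i = _
    rw [← Finset.sum_attach]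
    exact Finset.sum_congr rfl fun j _ => hA' _ _ _ hi
  refine ⟨A', ?_⟩
  intro T hT hT0
  have hc := hG.cert T hT hT0
  have hl := hG.level T hT hT0
  refine ⟨(hCNG Lam thL (lev T) _ hc).1, ⟨?_, ?_⟩, ?_⟩
  · obtain ⟨h, h1⟩ := hsum T hT (lev T) (hlev T hT)
    intro h0
    rw [h1] at h0
    have h2 : φ (⟨sumT A T (lev T), h⟩ * ⟨(sumT A T (lev T))⁻¹, hE3 T hT⟩) = 1 := by
      have h3 : (⟨sumT A T (lev T), h⟩ * ⟨(sumT A T (lev T))⁻¹, hE3 T hT⟩ : S) = 1 := by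
        apply Subtype.ext
        show sumT A T (lev T) * (sumT A T (lev T))⁻¹ = 1
        exact mul_inv_cancel₀ hl.1
      rw [h3, map_one]
    rw [map_mul, h0, zero_mul] at h2
    exact zero_ne_one h2
  · intro i hi
    by_cases hiM : i ≤ M
    · obtain ⟨h, h1⟩ := hsum T hT i hiM
      rw [h1]
      have h2 : (⟨sumT A T i, h⟩ : S) = 0 := Subtype.ext (hl.2 i hi)
      rw [h2, map_zero]
    · show ∑ j ∈ T, A' j i = 0
      exact Finset.sum_eq_zero fun j _ => hA0 j i (not_le.1 hiM)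
  · have hcert : Cert K (φ ⟨thL, hθ⟩) (lev T) (bb (lev T) (sumT A' T)) := by
      refine hET T hT hT0 S (hE1 T hT) K φ hθ _ ?_
      intro i hi
      obtain ⟨h, h1⟩ := hsum T hT i (hi.trans (hlev T hT))
      refine ⟨S.pow_mem h _, ?_⟩
      show sumT A' T i ^ (2 ^ (lev T - i)) = _
      rw [h1, ← map_pow]
      rfl
    rw [← hCSM K n hcard _ hps (lev T) _ hcert]
    exact Finset.sum_congr rfl fun x _ => hFAB K (lev T) (sumT A' T) x

end MX
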